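import Pool.Agent.H574R3.CS.Tasks

/-! Task F of project H574-CS: cubic forms over the field with four elements. -/

set_option autoImplicit false

namespace Pool.Agent.H550R3.CS

open Pool.Agent.H574R3.CS

/-- the field with four elements, `(x, y) = x + y w`, `w ^ 2 = w + 1` -/
structure G4 where
  x : Bool
  y : Bool
deriving DecidableEq

namespace G4

def add (a b : G4) : G4 := ⟨xor a.x b.x, xor a.y b.y⟩

def mul (a b : G4) : G4 :=
  ⟨xor (a.x && b.x) (a.y && b.y), xor (xor (a.x && b.y) (a.y && b.x)) (a.y && b.y)⟩

def inv (a : G4) : G4 := mul a a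

def all : List G4 := [⟨false, false⟩, ⟨true, false⟩, ⟨false, true⟩, ⟨true, true⟩]

theorem mem_all (a : G4) : a ∈ all := by
  rcases a with ⟨x, y⟩
  cases x <;> cases y <;> decide

instance : Fintype G4 := ⟨⟨all, by decide⟩, mem_all⟩

instance : Zero G4 := ⟨⟨false, false⟩⟩
instance : One G4 := ⟨⟨true, false⟩⟩
instance : Add G4 := ⟨add⟩
instance : Mul G4 := ⟨mul⟩
instance : Neg G4 := ⟨id⟩

instance : Field G4 where
  add_assoc := by decide
  zero_add := by decide
  add_zero := by decide
  add_comm := by decide
  nsmul := nsmulRec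
  zsmul := zsmulRec
  neg_add_cancel := by decide
  mul_assoc := by decide
  one_mul := by decide
  mul_one := by decide
  mul_comm := by decide
  left_distrib := by decide
  right_distrib := by decide
  zero_mul := by decide
  mul_zero := by decide
  inv := inv
  exists_pair_ne := ⟨0, 1, by decide⟩
  mul_inv_cancel := by decide
  inv_zero := by decide
  nnqsmul := _
  qsmul := _

theorem card : Fintype.card G4 = 4 := by decide

end G4

open G4

/-- value of the cubic form -/
def val (a b c d X Y : G4) : G4 :=
  add (mul a (mul X (mul X X))) (add (mul b (mul X (mul X Y)))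
    (add (mul c (mul X (mul Y Y))) (mul d (mul Y (mul Y Y)))))

def isZ (a : G4) : Bool := !a.x && !a.y

/-- a nontrivial zero -/
def chkZ (a b c d : G4) : Bool :=
  all.any fun X => all.any fun Y => isZ (val a b c d X Y) && !(isZ X && isZ Y)

/-- a good point -/
def chkG (a b c d : G4) : Bool :=
  all.any fun X => all.any fun Y =>
    !(isZ (add (add (mul a X) (mul b Y))
        (mul (add (mul a (mul X X)) (mul c (mul Y Y))) (add (mul a (mul X X)) (mul c (mul Y Y))))) &&
      isZ (add (add (mul c X) (mul d Y))
        (mul (add (mul b (mul X X)) (mul d (mul Y Y)))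
          (add (mul b (mul X X)) (mul d (mul Y Y)))))) &&
    all.any fun W => isZ (add (add (mul W W) W) (val a b c d X Y))

/-- diagonalisation -/
def chkD (a b c d : G4) : Bool :=
  all.any fun p => all.any fun r => isZ (add (val a b c d p r) ⟨true, false⟩) &&
    all.any fun q => all.any fun s => !isZ (add (mul p s) (mul q r)) &&
      !isZ (val a b c d q s) && !isZ (add (val a b c d q s) ⟨true, false⟩) &&
      isZ (add (add (mul a (mul p (mul p q))) (mul b (mul p (mul p s))))
        (add (mul c (mul q (mul r r))) (mul d (mul r (mul r s))))) &&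
      isZ (add (add (mul a (mul p (mul q q))) (mul b (mul q (mul q r))))
        (add (mul c (mul p (mul s s))) (mul d (mul r (mul s s)))))

set_option maxRecDepth 100000 in
theorem chk_all : (all.all fun a => all.all fun b => all.all fun c => all.all fun d =>
    chkZ a b c d || chkG a b c d || chkD a b c d) = true := by
  decide +kernel

theorem chk (a b c d : G4) : chkZ a b c d = true ∨ chkG a b c d = true ∨ chkD a b c d = true := by
  have h := chk_all
  simp only [List.all_eq_true] at h
  have := h a (mem_all a) b (mem_all b) c (mem_all c) d (mem_all d)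
  simp only [Bool.or_eq_true] at this
  tauto

theorem isZ_iff (a : G4) : isZ a = true ↔ a = 0 := by revert a; decide

theorem add_def (a b : G4) : add a b = a + b := rfl
theorem mul_def (a b : G4) : mul a b = a * b := rfl

theorem two_G4 : (2 : G4) = 0 := by decide

theorem main (a b c d : G4)
    (h : ∀ X Y : G4, a * X ^ 3 + b * X ^ 2 * Y + c * X * Y ^ 2 + d * Y ^ 3 = 0 → X = 0 ∧ Y = 0) :
    (∃ X Y W : G4, W ^ 2 + W = a * X ^ 3 + b * X ^ 2 * Y + c * X * Y ^ 2 + d * Y ^ 3 ∧
      ¬ (a * X + b * Y = (a * X ^ 2 + c * Y ^ 2) ^ 2 ∧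
        c * X + d * Y = (b * X ^ 2 + d * Y ^ 2) ^ 2)) ∨
    ∃ p q r s β : G4, p * s - q * r ≠ 0 ∧ β ≠ 0 ∧ β ≠ 1 ∧
      a * p ^ 3 + b * p ^ 2 * r + c * p * r ^ 2 + d * r ^ 3 = 1 ∧
      3 * a * p ^ 2 * q + b * (p ^ 2 * s + 2 * p * q * r) + c * (q * r ^ 2 + 2 * p * r * s) +
        3 * d * r ^ 2 * s = 0 ∧
      3 * a * p * q ^ 2 + b * (q ^ 2 * r + 2 * p * q * s) + c * (p * s ^ 2 + 2 * q * r * s) +
        3 * d * r * s ^ 2 = 0 ∧
      a * q ^ 3 + b * q ^ 2 * s + c * q * s ^ 2 + d * s ^ 3 = β := by
  have h2 := two_G4
  have h3 : (3 : G4) = 1 := by decide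
  have h1 : (⟨true, false⟩ : G4) = 1 := rfl
  have add_eq : ∀ u v : G4, u + v = 0 ↔ u = v := by decide
  rcases chk a b c d with h' | h' | h'
  · exfalso
    simp only [chkZ, List.any_eq_true, Bool.and_eq_true, isZ_iff, val, add_def, mul_def,
      Bool.not_eq_true', ← Bool.not_eq_true] at h'
    obtain ⟨X, -, Y, -, h4, h5⟩ := h'
    refine h5 (h X Y ?_)
    rw [← h4]; ring
  · left
    simp only [chkG, List.any_eq_true, Bool.and_eq_true, isZ_iff, val, add_def, mul_def,
      Bool.not_eq_true', ← Bool.not_eq_true, add_eq] at h'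
    obtain ⟨X, -, Y, -, h4, W, -, h5⟩ := h'
    refine ⟨X, Y, W, ?_, ?_⟩
    · rw [pow_two, h5]; ring
    · rintro ⟨h6, h7⟩
      refine h4 ⟨?_, ?_⟩
      · rw [h6]; ring
      · rw [h7]; ring
  · right
    simp only [chkD, List.any_eq_true, Bool.and_eq_true, isZ_iff, val, add_def, mul_def,
      Bool.not_eq_true', ← Bool.not_eq_true, add_eq, h1] at h'
    obtain ⟨p, -, r, -, h4, q, -, s, -, ⟨⟨⟨h5, h6⟩, h7⟩, h8⟩, h9⟩ := h'
    refine ⟨p, q, r, s, _, ?_, ?_, ?_, ?_, ?_, ?_, rfl⟩
    · intro h10; exact h5 (sub_eq_zero.mp h10)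
    · intro h10; apply h6; rw [← add_eq, ← h10]; ring
    · intro h10; apply h7; rw [← h10]; ring
    · rw [← h4]; ring
    · have : a * p * p * q + b * p * p * s = c * q * r * r + d * r * r * s := by
        rw [show a * p * p * q + b * p * p * s = a * (p * (p * q)) + b * (p * (p * s)) by ring,
          h8]
        ring
      rw [← add_eq] at this
      linear_combination (exp := 1) this + (a * p ^ 2 * q + d * r ^ 2 * s + b * p * q * r + c * p * r * s) * h2
    · have : a * p * q * q + b * q * q * r = c * p * s * s + d * r * s * s := by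
        rw [show a * p * q * q + b * q * q * r = a * (p * (q * q)) + b * (q * (q * r)) by ring,
          h9]
        ring
      rw [← add_eq] at this
      linear_combination (exp := 1) this + (a * p * q ^ 2 + d * r * s ^ 2 + b * p * q * s + c * q * r * s) * h2

end Pool.Agent.H550R3.CS

namespace Pool.Agent.H574R3.CS

open Pool.Agent.H550R3.CS

theorem taskF : TaskF := by
  intro K _ _ hc a b c d h
  let e : K ≃+* G4 := FiniteField.ringEquivOfCardEq (hc.trans G4.card.symm)
  have he2 : e 2 = 2 := map_ofNat e 2
  have he3 : e 3 = 3 := map_ofNat e 3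
  have hm := main (e a) (e b) (e c) (e d) (by
    intro X Y hXY
    have := h (e.symm X) (e.symm Y) (by
      apply e.injective
      simpa using hXY)
    simpa using this)
  rcases hm with ⟨X, Y, W, h1, h2⟩ | ⟨p, q, r, s, β, h1, h2, h3, h4, h5, h6, h7⟩
  · left
    refine ⟨e.symm X, e.symm Y, e.symm W, ?_, ?_⟩
    · apply e.injective
      simpa using h1
    · rintro ⟨h3, h4⟩
      apply h2
      constructor
      · have := congrArg e h3
        simpa using this
      · have := congrArg e h4
        simpa using this
  · right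
    refine ⟨e.symm p, e.symm q, e.symm r, e.symm s, e.symm β, ?_, ?_, ?_, ?_, ?_, ?_, ?_⟩
    · intro h8
      apply h1
      have := congrArg e h8
      simpa using this
    · intro h8
      apply h2
      have := congrArg e h8
      simpa using this
    · intro h8
      apply h3
      have := congrArg e h8
      simpa using this
    · apply e.injective
      simpa using h4
    · apply e.injective
      simpa [he2, he3] using h5
    · apply e.injective
      simpa [he2, he3] using h6
    · apply e.injective
      simpa using h7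

end Pool.Agent.H574R3.CS
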